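import Pool.Agent.Zk15.Mx12
import Pool.Agent.Zk15.Mink

/-!
MP_6a3dac_ag: proper flat models over the ring of integers of a number field `E`, in every
dimension, of the products `X₁ × X₂` over `E`, where `X₁` is a smooth projective toric variety over
`E` whose torus splits over a finite Galois extension `M` of `E`, and `X₂` is a smooth projective
variety over `E` which has a smooth projective model over the ring of integers of `M`. The flat model
is regular at all points whose residue characteristic `p` is good: `p = 0`, or, for all maximal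
ideals `𝔓` of `𝓞 M` which contain `p`,

1. `p ^ 2` does not divide the order of the inertia group of `𝔓`, or the inertia group acts
   faithfully on the character lattice `ℤ ^ n` and `n < 2 (p - 1)`; and
2. the wild inertia group of `𝔓` fixes the homogeneous coordinates of `X₂` (that is, `X₂` has good
   reduction over a tamely ramified extension of `E`, locally).

In particular, all `p` at which `M` is tamely ramified over `E` are good.

The Galois group acts on the character group `ℤ ^ n` of the torus by `φ`. The field `K` is the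
function field of the product over `M`; it is generated over `M` by the coordinates `x` of the torus
and the quotients of the homogeneous coordinates `h` of `X₂`, and `x` is algebraically independent
over the function field of `X₂` (over `M`). The field `F` of the invariants of `K` is the function
field of the product over `E`. The charts `(𝓞 M)[h 0 / h a, ..., h r / h a]` of the model of `X₂` over
the ring of integers of `M` are smooth over `𝓞 M`, and the Galois action extends to this model (the
`𝓞 M`-span of `h` is stable). The product is embedded in a projective space over `E`: over `M`, its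
homogeneous coordinates span the same space as the products of the monomials in the finite set `P` of
lattice points of a smooth lattice polytope and the elements `h b` (Segre embedding).

The proof: the weighted blowups of the toric scheme at the wildly ramified primes (`wd_main`) have
regular charts, on which the leading form of `g - 1` has no zeros for the wild automorphisms `g`. The
charts of the product are tensor products with smooth rings over the ring of `N`-integers of `M` (by
linear disjointness), so they are regular, and they satisfy the other conditions of the theorem on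
quotients with nondegenerate wild inertia groups (WeightedWildQuotients of the starting files); here
`N` is the product of the primes which are not good.
-/

set_option autoImplicit false

open AlgebraicGeometry CategoryTheory CategoryTheory.Limits MvPolynomial

open scoped NumberField

namespace Pool.Agent.Results.MP_6a3dac_ag.ToricProducts

/-- The inertia group of the ideal `𝔓` of the ring of integers of `M`: the automorphisms of `M` over
`E` which act trivially modulo `𝔓`. -/
def inertiaGroup (E : Type) {M : Type} [Field E] [Field M] [Algebra E M] (𝔓 : Ideal (𝓞 M)) :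
    Set (M ≃ₐ[E] M) :=
  {g | ∀ o : 𝓞 M, ∃ e ∈ 𝔓, (e : M) = g o - o}

/-- `g ≠ 1` is in the wild inertia group of `𝔓`: it is the identity modulo `𝔓` and acts trivially
on `𝔓` modulo `𝔓 ^ 2`. -/
def IsWild {E M : Type} [Field E] [Field M] [Algebra E M] (𝔓 : Ideal (𝓞 M))
    (g : M ≃ₐ[E] M) : Prop :=
  g ≠ 1 ∧ (∀ o : 𝓞 M, ∃ a ∈ 𝔓, (a : M) = g o - o) ∧ ∀ o ∈ 𝔓, ∃ a ∈ 𝔓 ^ 2, (a : M) = g o - o

/-- The Laurent monomial `x ^ μ`, for `μ` in `ℤ ^ n`. -/
noncomputable def laurentMonomial {K : Type} [Field K] {n : ℕ} (x : Fin n → K)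
    (μ : Fin n → ℤ) : K := ∏ i, x i ^ μ i

/-- The finite set `P` of lattice points, with the set `V` of vertices, spans a smooth lattice
polytope: at each vertex `v` there is a basis `b` of the lattice such that the points `v + b i` are
in `P` and the differences `μ - v`, for `μ` in `P`, are combinations of the elements of `b` with
coefficients `≥ 0`; each point `μ` of `P` is a rational convex combination of vertices (for a nonempty
family `s` of vertices, `μ` times the number of elements of `s` is the sum of `s`). -/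
structure IsSmoothPolytope {n : ℕ} (P V : Set (Fin n → ℤ)) : Prop where
  finite : P.Finite
  nonempty : P.Nonempty
  vertices : V ⊆ P
  smooth : ∀ v ∈ V, ∃ b : Module.Basis (Fin n) ℤ (Fin n → ℤ), (∀ i, v + b i ∈ P) ∧
    ∀ μ ∈ P, ∀ i, 0 ≤ b.repr (μ - v) i
  convex : ∀ μ ∈ P, ∃ s : Multiset (Fin n → ℤ), s ≠ 0 ∧ (∀ v ∈ s, v ∈ V) ∧
    Multiset.card s • μ = s.sum

/-- `u` are homogeneous coordinates in the field `F` of the variety with the homogeneous coordinate
ring `B` over `E`: a form vanishes in `B` if and only if it vanishes at `u`. -/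
def IsCoordinates {E F B : Type} [Field E] [Field F] [Algebra E F] [CommRing B] [Algebra E B]
    {r : ℕ} (π : MvPolynomial (Fin (r + 1)) E →ₐ[E] B) (u : Fin (r + 1) → F) : Prop :=
  ∀ d, ∀ Q : MvPolynomial (Fin (r + 1)) E, Q.IsHomogeneous d → (π Q = 0 ↔ aeval u Q = 0)

/-- The ring `O[h 0 / h a, ..., h r / h a]` of the chart `h a ≠ 0`. -/
def chartRing (O : Type) {K : Type} [CommRing O] [Field K] [Algebra O K] {r : ℕ}
    (h : Fin (r + 1) → K) (a : Fin (r + 1)) : Subalgebra O K :=
  Algebra.adjoin O (Set.range fun b => h b / h a)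

/-- The function field over `M` of the variety with the homogeneous coordinates `h`: the field
generated over `M` by the quotients of the coordinates. -/
def functionField (M : Type) {K : Type} [Field M] [Field K] [Algebra M K] {r : ℕ}
    (h : Fin (r + 1) → K) : IntermediateField M K :=
  IntermediateField.adjoin M (Set.range fun b => h b / h 0)

/-- The elements `h` (with `h b ≠ 0`) are homogeneous coordinates of a smooth projective scheme over
the ring of integers of `M`, with an action of the Galois group: the charts are smooth over `𝓞 M`,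
and the `𝓞 M`-span of `h` is stable under the action `ρ`. -/
structure HasSmoothModel {E M K : Type} [Field E] [Field M] [NumberField M] [Algebra E M]
    [Field K] [Algebra M K] [Algebra E K] {r : ℕ} (ρ : (M ≃ₐ[E] M) →* (K ≃ₐ[E] K))
    (h : Fin (r + 1) → K) : Prop where
  ne_zero : ∀ b, h b ≠ 0
  smooth : ∀ a, Algebra.Smooth (𝓞 M) (chartRing (𝓞 M) h a)
  stable : ∀ g a, ρ g (h a) ∈ Submodule.span (𝓞 M) (Set.range h)

/-- The order of the inertia group of `𝔓` is not divisible by `p ^ 2`, or the inertia group acts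
faithfully on `ℤ ^ n` and `n < 2 (p - 1)`. -/
def HasSmallInertia {E M : Type} [Field E] [Field M] [Algebra E M] {n : ℕ}
    (φ : (M ≃ₐ[E] M) →* ((Fin n → ℤ) ≃ₗ[ℤ] (Fin n → ℤ))) (p : ℕ) (𝔓 : Ideal (𝓞 M)) : Prop :=
  ¬ p ^ 2 ∣ Nat.card (inertiaGroup E 𝔓) ∨ (Set.InjOn φ (inertiaGroup E 𝔓) ∧ n < 2 * (p - 1))

/-- The wild inertia group of `𝔓` fixes the coordinates `h`. -/
def IsTameAt {E M K : Type} [Field E] [Field M] [Algebra E M] [Field K] [Algebra E K] {r : ℕ}
    (ρ : (M ≃ₐ[E] M) →* (K ≃ₐ[E] K)) (h : Fin (r + 1) → K) (𝔓 : Ideal (𝓞 M)) : Prop :=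
  ∀ g, IsWild 𝔓 g → ∀ b, ρ g (h b) = h b

/-- The characteristic `p` is good: `p = 0`, or the conditions hold at all maximal ideals `𝔓` of
`𝓞 M` which contain `p`. -/
def IsGood {E M K : Type} [Field E] [Field M] [Algebra E M] [Field K] [Algebra E K] {n r : ℕ}
    (ρ : (M ≃ₐ[E] M) →* (K ≃ₐ[E] K)) (φ : (M ≃ₐ[E] M) →* ((Fin n → ℤ) ≃ₗ[ℤ] (Fin n → ℤ)))
    (h : Fin (r + 1) → K) (p : ℕ) : Prop :=
  p = 0 ∨ ∀ 𝔓 : Ideal (𝓞 M), 𝔓.IsMaximal → (p : 𝓞 M) ∈ 𝔓 → HasSmallInertia φ p 𝔓 ∧ IsTameAt ρ h 𝔓

/-- The `M`-linear combinations of the coordinates `u` are those of the products of a monomial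
`x ^ μ`, for `μ` in `P`, and one of the elements `h b`: over `M`, the variety with the coordinates `u`
is the product, in its Segre embedding, of the toric variety of the polytope `P` and the variety with
the coordinates `h`. -/
def SpanProducts (M : Type) {F K : Type} [Field M] [Field F] [Field K] [Algebra M K]
    [Algebra F K] {n r s : ℕ} (u : Fin (s + 1) → F) (x : Fin n → K) (P : Set (Fin n → ℤ))
    (h : Fin (r + 1) → K) : Prop :=
  Submodule.span M (Set.range fun i => algebraMap F K (u i)) =
    Submodule.span M {y | ∃ μ ∈ P, ∃ b, y = laurentMonomial x μ * h b}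

/-- The action `ρ` on `K` is semilinear over the action of the Galois group on `M`, and `F` is the
field of its invariants. -/
def IsDescent {E M K : Type} (F : Type) [Field E] [Field M] [Algebra E M] [Field F] [Field K]
    [Algebra M K] [Algebra E K] [Algebra F K] (ρ : (M ≃ₐ[E] M) →* (K ≃ₐ[E] K)) : Prop :=
  (∀ g c, ρ g (algebraMap M K c) = algebraMap M K (g c)) ∧
    ∀ y, (∀ g, ρ g y = y) ↔ ∃ f : F, algebraMap F K f = y

/-- The action `ρ` maps the monomial `x ^ μ` to `x ^ φ(g)(μ)`, and the finite set `P` is stable under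
`φ`. -/
def IsToricAction {E M K : Type} [Field E] [Field M] [Algebra E M] [Field K] [Algebra E K] {n : ℕ}
    (ρ : (M ≃ₐ[E] M) →* (K ≃ₐ[E] K)) (φ : (M ≃ₐ[E] M) →* ((Fin n → ℤ) ≃ₗ[ℤ] (Fin n → ℤ)))
    (x : Fin n → K) (P : Set (Fin n → ℤ)) : Prop :=
  (∀ g μ, ρ g (laurentMonomial x μ) = laurentMonomial x (φ g μ)) ∧ ∀ g, ∀ μ ∈ P, φ g μ ∈ P

/-- The field `K` is the function field of the product over `M`: `x` is algebraically independent
over the function field of the variety with the coordinates `h`, and the two generate `K`. -/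
def IsProductField (M : Type) {K : Type} [Field M] [Field K] [Algebra M K] {n r : ℕ}
    (x : Fin n → K) (h : Fin (r + 1) → K) : Prop :=
  AlgebraicIndependent (functionField M h) x ∧
    IntermediateField.adjoin M (Set.range x ∪ Set.range fun b => h b / h 0) = ⊤

/-- The graded ring `ℬ` is generated over `E` by the images of the variables. -/
def IsCoordinateRing {E B : Type} [Field E] [CommRing B] [Algebra E B] {s : ℕ}
    (π : MvPolynomial (Fin (s + 1)) E →ₐ[E] B) (ℬ : ℕ → Submodule E B) : Prop :=
  Function.Surjective π ∧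
    ∀ d, ℬ d = (homogeneousSubmodule (Fin (s + 1)) E d).map π.toLinearMap

/-- The dimension of the local ring `A` equals the dimension of its cotangent space. -/
def HasRegularDimension (A : Type) [CommRing A] [IsLocalRing A] : Prop :=
  ringKrullDim A = (((Module.finrank (IsLocalRing.ResidueField A)
    (IsLocalRing.CotangentSpace A) : ℕ) : ℕ∞) : WithBot ℕ∞)

/-- The generic fibre of `g` is isomorphic over `E` to `X` with the morphism `f`. -/
def HasGenericFibre {E : Type} [Field E] {X Y : Scheme.{0}}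
    (f : X ⟶ Spec (CommRingCat.of E)) (g : Y ⟶ Spec (CommRingCat.of (𝓞 E))) : Prop :=
  ∃ e : pullback g (Spec.map (CommRingCat.ofHom (algebraMap (𝓞 E) E))) ≅ X,
    e.hom ≫ f = pullback.snd g (Spec.map (CommRingCat.ofHom (algebraMap (𝓞 E) E)))

/-- The morphism `g` from `Y` is a proper flat model over the ring of integers of `E` of `X` with the
morphism `f` to `Spec E`, and `Y` is regular at all points whose residue characteristic has the
property `good`. -/
def IsProperFlatModelRegularAt {E : Type} [Field E] {X Y : Scheme.{0}} (good : ℕ → Prop)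
    (f : X ⟶ Spec (CommRingCat.of E)) (g : Y ⟶ Spec (CommRingCat.of (𝓞 E))) : Prop :=
  IsProper g ∧ Flat g ∧
    (∀ y : Y, good (ringChar (IsLocalRing.ResidueField (Y.presheaf.stalk y))) →
      HasRegularDimension (Y.presheaf.stalk y)) ∧ HasGenericFibre f g

/-- The structure morphism of `Proj ℬ` over `E`. -/
noncomputable def structureMorphism {E B : Type} [Field E] [CommRing B] [Algebra E B]
    (ℬ : ℕ → Submodule E B) [GradedAlgebra ℬ] : Proj ℬ ⟶ Spec (CommRingCat.of E) :=
  Proj.toSpecZero ℬ ≫ Spec.map (CommRingCat.ofHom (algebraMap E (ℬ 0)))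

theorem result :
    ∀ (E M : Type) [Field E] [NumberField E] [Field M] [NumberField M] [Algebra E M]
      [IsGalois E M]
      -- the function fields `F` and `K` of the product over `E` and over `M`, and the Galois action
      (F K : Type) [Field F] [Field K] [Algebra E F] [Algebra M K] [Algebra E K]
      [IsScalarTower E M K] [Algebra F K] [IsScalarTower E F K]
      (ρ : (M ≃ₐ[E] M) →* (K ≃ₐ[E] K)), IsDescent F ρ →
      -- the smooth projective variety with good reduction over `M`
      ∀ (r : ℕ) (h : Fin (r + 1) → K), HasSmoothModel ρ h →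
      -- the torus, its character group, and the polytope
      ∀ (n : ℕ) (x : Fin n → K), IsProductField M x h →
      ∀ P V : Set (Fin n → ℤ), IsSmoothPolytope P V →
      ∀ φ : (M ≃ₐ[E] M) →* ((Fin n → ℤ) ≃ₗ[ℤ] (Fin n → ℤ)), IsToricAction ρ φ x P →
      -- the homogeneous coordinate ring over `E` of the product
      ∀ (s : ℕ) (B : Type) [CommRing B] [Algebra E B] (π : MvPolynomial (Fin (s + 1)) E →ₐ[E] B)
      (ℬ : ℕ → Submodule E B) [GradedAlgebra ℬ], IsCoordinateRing π ℬ →
      ∀ (u : Fin (s + 1) → F), IsCoordinates π u → SpanProducts M u x P h →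
      -- every scheme over `E` isomorphic to `Proj ℬ` has a proper flat model, regular at the points
      -- of good residue characteristic
      ∀ (X : Scheme.{0}) (f : X ⟶ Spec (CommRingCat.of E)) (i : X ≅ Proj ℬ),
      i.hom ≫ structureMorphism ℬ = f →
      ∃ (Y : Scheme.{0}) (g : Y ⟶ Spec (CommRingCat.of (𝓞 E))),
        IsProperFlatModelRegularAt (IsGood ρ φ h) f g := by
  rintro E M _ _ _ _ _ _ F K _ _ _ _ _ _ _ _ ρ ⟨hρ, hfix⟩ r h hh n x ⟨hx, hgen⟩ P V hP φ
    ⟨hρx, hφ⟩ s B _ _ π ℬ _ ⟨hπ, hℬ⟩ u hu hseg X f i hi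
  classical
  have hset : ∀ 𝔓 : Ideal (𝓞 M),
      ((Pool.Agent.Y223.G.inert E 𝔓 : Subgroup (M ≃ₐ[E] M)) : Set (M ≃ₐ[E] M)) =
        inertiaGroup E 𝔓 := by
    intro 𝔓
    ext g
    constructor
    · intro hg o
      exact ⟨_, hg o, rfl⟩
    · intro hg o
      obtain ⟨e, he, h⟩ := hg o
      have h2 : e = Pool.Agent.Y223.G.TT E M g o - o := by
        apply NumberField.RingOfIntegers.coe_injective
        exact h
      rw [← h2]
      exact he
  have hcard : ∀ 𝔓 : Ideal (𝓞 M), Nat.card (Pool.Agent.Y223.G.inert E 𝔓) =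
      Nat.card (inertiaGroup E 𝔓) := fun 𝔓 =>
    congrArg (fun S : Set (M ≃ₐ[E] M) => Nat.card S) (hset 𝔓)
  have hne : Nonempty (Module.Basis (Fin n) ℤ (Fin n → ℤ)) := ⟨Pi.basisFun ℤ (Fin n)⟩
  choose! b hb using hP.smooth
  have hSP : Pool.Agent.Zk15.SP P ((fun v => (v, b v)) '' V) := by
    refine ⟨?_, ?_, ?_, ?_⟩
    · rintro w c ⟨v, hv, h⟩
      obtain ⟨h1, h2⟩ := Prod.mk.inj h
      subst h1 h2
      exact hP.vertices hv
    · rintro w c ⟨v, hv, h⟩
      obtain ⟨h1, h2⟩ := Prod.mk.inj h
      subst h1 h2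
      exact (hb v hv).1
    · rintro w c ⟨v, hv, h⟩
      obtain ⟨h1, h2⟩ := Prod.mk.inj h
      subst h1 h2
      exact (hb v hv).2
    · intro μ hμ
      obtain ⟨s, hs0, hs, hsum⟩ := hP.convex μ hμ
      exact ⟨s, hs0, fun v hv => ⟨b v, v, hs v hv, rfl⟩, hsum⟩
  -- an integer in all ramified primes
  obtain ⟨c, hc0, hc⟩ : ∃ c : ℕ, c ≠ 0 ∧ ∀ (𝔓 : Ideal (𝓞 M)) (g : M ≃ₐ[E] M), g ≠ 1 →
      (∀ o : 𝓞 M, Pool.Agent.Y223.G.TT E M g o - o ∈ 𝔓) → (c : 𝓞 M) ∈ 𝔓 := by
    have hex : ∀ g : M ≃ₐ[E] M, ∃ o : 𝓞 M, g ≠ 1 → Pool.Agent.Y223.G.TT E M g o - o ≠ 0 := by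
      intro g
      by_cases hg : g = 1
      · exact ⟨0, fun h => absurd hg h⟩
      · by_contra hcon
        push Not at hcon
        apply hg
        apply Pool.Agent.Y223.G.TT_faithful g
        intro o
        exact sub_eq_zero.1 (hcon o).2
    choose o ho using hex
    let δ : 𝓞 M := ∏ g ∈ Finset.univ.filter (fun g : M ≃ₐ[E] M => g ≠ 1),
      (Pool.Agent.Y223.G.TT E M g (o g) - o g)
    have hδ : δ ≠ 0 := Finset.prod_ne_zero_iff.2 fun g hg => ho g (Finset.mem_filter.1 hg).2
    refine ⟨Ideal.absNorm (Ideal.span {δ}), ?_, ?_⟩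
    · rw [Ne, Ideal.absNorm_eq_zero_iff, Ideal.span_singleton_eq_bot]
      exact hδ
    · intro 𝔓 g hg1 hg
      have h1 : Ideal.span {δ} ≤ 𝔓 := by
        rw [Ideal.span_singleton_le_iff_mem]
        have h2 : g ∈ Finset.univ.filter (fun g : M ≃ₐ[E] M => g ≠ 1) :=
          Finset.mem_filter.2 ⟨Finset.mem_univ _, hg1⟩
        simp only [δ]
        rw [← Finset.mul_prod_erase _ _ h2]
        exact 𝔓.mul_mem_right _ (hg _)
      exact h1 (Ideal.absNorm_mem _)
  -- the bad primes
  let D : ℕ := Nat.card (M ≃ₐ[E] M) * c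
  have hD0 : D ≠ 0 := mul_ne_zero Nat.card_pos.ne' hc0
  let S : Finset ℕ := D.primeFactors.filter fun q => ¬ IsGood ρ φ h q
  let N : ℕ := ∏ q ∈ S, q
  have hS : ∀ q ∈ S, q.Prime ∧ ¬ IsGood ρ φ h q := fun q hq =>
    ⟨Nat.prime_of_mem_primeFactors (Finset.mem_filter.1 hq).1, (Finset.mem_filter.1 hq).2⟩
  have hN : N ≠ 0 := Finset.prod_ne_zero_iff.2 fun q hq => (hS q hq).1.ne_zero
  have hgood : ∀ 𝔓 : Ideal (𝓞 M), (N : 𝓞 M) ∉ 𝔓 → ∀ p : ℕ, p.Prime → (p : 𝓞 M) ∈ 𝔓 →
      p ∣ D → IsGood ρ φ h p := by
    intro 𝔓 hN𝔓 p hp hp𝔓 hpD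
    by_contra hbad
    have h2 : p ∈ S := Finset.mem_filter.2 ⟨Nat.mem_primeFactors.2 ⟨hp, hpD, hD0⟩, hbad⟩
    have h3 : p ∣ N := Finset.dvd_prod_of_mem (fun q => q) h2
    apply hN𝔓
    obtain ⟨e, he⟩ := h3
    rw [he]
    push_cast
    exact 𝔓.mul_mem_right _ hp𝔓
  obtain ⟨Y, g, hg, hfl, hreg, e, he⟩ := Pool.Agent.Zk15.MX.mx_N (F := F) (K := K) hN (by
    intro 𝔓 h𝔓 hN𝔓 p hp hp𝔓 hd
    have h1 : p ∣ Nat.card (M ≃ₐ[E] M) := (Dvd.intro_left (p ^ 1) (by ring)).trans
      (hd.trans (Subgroup.card_subgroup_dvd_card _))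
    rcases hgood 𝔓 hN𝔓 p hp hp𝔓 (h1.mul_right c) with h2 | h2
    · exact hp.ne_zero h2
    · rcases (h2 𝔓 h𝔓 hp𝔓).1 with h3 | ⟨hφ, hn⟩
      · exact h3 (by rwa [← hcard])
      · refine Pool.Agent.Zk15.mink hp hn
          (φ.comp (Pool.Agent.Y223.G.inert E 𝔓).subtype) ?_ hd
        intro a b hab
        apply Subtype.ext
        refine hφ ?_ ?_ hab
        · rw [← hset]; exact a.2
        · rw [← hset]; exact b.2) φ hSP hP.finite hP.nonempty
      ((hP.finite.subset hP.vertices).image _) hφ ρ hρ hfix hh.ne_zero hx hgen hρx hh.smooth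
      hh.stable (by
        intro 𝔓 h𝔓 hN𝔓 g hg
        have hg2 : ∀ o : 𝓞 M, Pool.Agent.Y223.G.TT E M g o - o ∈ 𝔓 := by
          have h1 : g ∈ inertiaGroup E 𝔓 := hg.2.1
          rw [← hset] at h1
          exact h1
        have hc𝔓 := hc 𝔓 g hg.1 hg2
        have h0 : 𝔓 ≠ ⊥ := by
          rintro rfl
          rw [Ideal.mem_bot] at hc𝔓
          exact hc0 (by exact_mod_cast hc𝔓)
        obtain ⟨p, hp, hp𝔓⟩ := Pool.Agent.Y223.G.exists_resChar 𝔓 h𝔓 h0
        have hpc : p ∣ c := by
          by_contra hcon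
          have h1 : Nat.Coprime p c := (Nat.Prime.coprime_iff_not_dvd hp).2 hcon
          have h2 := Nat.isCoprime_iff_coprime.2 h1
          obtain ⟨a, b, hab⟩ := h2
          apply h𝔓.ne_top
          rw [Ideal.eq_top_iff_one]
          have h3 : (1 : 𝓞 M) = (a : 𝓞 M) * (p : 𝓞 M) + (b : 𝓞 M) * (c : 𝓞 M) := by
            exact_mod_cast congrArg (fun z : ℤ => (z : 𝓞 M)) hab.symm
          rw [h3]
          exact 𝔓.add_mem (𝔓.mul_mem_left _ hp𝔓) (𝔓.mul_mem_left _ hc𝔓)
        rcases hgood 𝔓 hN𝔓 p hp hp𝔓 (hpc.mul_left _) with h2 | h2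
        · exact absurd h2 hp.ne_zero
        · exact (h2 𝔓 h𝔓 hp𝔓).2 g hg)
      u hseg π hπ ℬ hℬ (fun d Q hQ => hu d Q hQ) f i hi
  refine ⟨Y, g, hg, hfl, fun y hy => ?_, e, he⟩
  have h4 := hreg y (by
    intro hd
    rcases CharP.char_is_prime_or_zero (IsLocalRing.ResidueField (Y.presheaf.stalk y))
      (ringChar (IsLocalRing.ResidueField (Y.presheaf.stalk y))) with hp | hp
    · obtain ⟨q, hq, hpq⟩ := (Prime.dvd_finsetProd_iff hp.prime _).1 hd
      have hpq' := (Nat.prime_dvd_prime_iff_eq hp (hS q hq).1).1 hpq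
      exact (hS q hq).2 (by rwa [← hpq'])
    · rw [hp] at hd
      exact hN (Nat.eq_zero_of_zero_dvd hd))
  rw [HasRegularDimension, ← (IsRegularLocalRing.iff_finrank_cotangentSpace _).1 h4]
  rfl

end Pool.Agent.Results.MP_6a3dac_ag.ToricProducts
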